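import Mathlib

set_option autoImplicit false
set_option linter.unusedSectionVars false

/-!
Queues on a ring (Ferrari-Martin): arrivals `U`, services `S`, departures `park S U`.
-/

namespace Pool.Agent.H648Z.TA

open Finset

variable {N : ℕ} [NeZero N]

/-- indicator -/
def χ (U : Finset (ZMod N)) (t : ZMod N) : ℤ := if t ∈ U then 1 else 0

theorem χ_mem {U : Finset (ZMod N)} {t : ZMod N} (h : t ∈ U) : χ U t = 1 := if_pos h
theorem χ_not {U : Finset (ZMod N)} {t : ZMod N} (h : t ∉ U) : χ U t = 0 := if_neg h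

theorem χ_nonneg (U : Finset (ZMod N)) (t : ZMod N) : 0 ≤ χ U t := by
  unfold χ; split_ifs <;> norm_num

theorem χ_le_one (U : Finset (ZMod N)) (t : ZMod N) : χ U t ≤ 1 := by
  unfold χ; split_ifs <;> norm_num

theorem χ_mono {U V : Finset (ZMod N)} (h : U ⊆ V) (t : ZMod N) : χ U t ≤ χ V t := by
  by_cases h1 : t ∈ U
  · rw [χ_mem h1, χ_mem (h h1)]
  · rw [χ_not h1]; exact χ_nonneg _ _

theorem sum_χ (U : Finset (ZMod N)) : ∑ t, χ U t = U.card := by
  unfold χ
  rw [← sum_filter]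
  simp

/-- the exclusion move at the bond `(j, j + 1)`: a particle at `j + 1` jumps to `j` if `j` is empty -/
def mv (j : ZMod N) (U : Finset (ZMod N)) : Finset (ZMod N) :=
  if j + 1 ∈ U ∧ j ∉ U then insert j (U.erase (j + 1)) else U

theorem card_mv (j : ZMod N) (U : Finset (ZMod N)) : (mv j U).card = U.card := by
  unfold mv
  split_ifs with h
  · rw [card_insert_of_notMem (fun h' => h.2 (mem_of_mem_erase h')), card_erase_of_mem h.1]
    have := card_pos.2 ⟨_, h.1⟩
    omega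
  · rfl

theorem mem_mv_other {j t : ZMod N} (U : Finset (ZMod N)) (h1 : t ≠ j) (h2 : t ≠ j + 1) :
    t ∈ mv j U ↔ t ∈ U := by
  unfold mv
  split_ifs with h
  · simp [h1, h2]
  · rfl

theorem mem_mv_left (j : ZMod N) (U : Finset (ZMod N)) : j ∈ mv j U ↔ j ∈ U ∨ j + 1 ∈ U := by
  unfold mv
  split_ifs with h
  · simp [h.1]
  · tauto

theorem mem_mv_right {j : ZMod N} (U : Finset (ZMod N)) (hj : j + 1 ≠ j) :
    j + 1 ∈ mv j U ↔ j ∈ U ∧ j + 1 ∈ U := by
  unfold mv
  split_ifs with h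
  · simp [h.2, hj]
  · tauto

theorem mv_of_eq {j : ZMod N} (U : Finset (ZMod N)) (hj : j + 1 = j) : mv j U = U := by
  unfold mv
  rw [if_neg]
  rw [hj]; tauto

theorem mv_of_not {j : ZMod N} {U : Finset (ZMod N)} (hj : j + 1 ∉ U) : mv j U = U := by
  unfold mv
  rw [if_neg]
  tauto

/-- `V` is the set of departure times of the queue with arrivals `U` and services `S`, with queue length `Q` -/
structure IsQ (S U V : Finset (ZMod N)) (Q : ZMod N → ℤ) : Prop where
  sub : V ⊆ S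
  nonneg : ∀ t, 0 ≤ Q t
  step : ∀ t, Q (t + 1) = Q t + χ U (t + 1) - χ V (t + 1)
  idle : ∀ t ∈ S, t ∉ V → Q t = 0

theorem IsQ.card {S U V : Finset (ZMod N)} {Q : ZMod N → ℤ} (h : IsQ S U V Q) : V.card = U.card := by
  have h1 : ∑ t, Q (t + 1) = ∑ t, (Q t + χ U (t + 1) - χ V (t + 1)) := sum_congr rfl fun t _ => h.step t
  rw [sum_sub_distrib, sum_add_distrib] at h1
  have e : ∀ f : ZMod N → ℤ, ∑ t, f (t + 1) = ∑ t, f t := fun f => Equiv.sum_comp (Equiv.addRight (1 : ZMod N)) f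
  rw [e Q, e (χ U), e (χ V), sum_χ, sum_χ] at h1
  omega

theorem IsQ.lindley {S U V : Finset (ZMod N)} {Q : ZMod N → ℤ} (h : IsQ S U V Q) (t : ZMod N) :
    Q (t + 1) = max 0 (Q t + χ U (t + 1) - χ S (t + 1)) := by
  have h1 := h.step t
  have h2 := h.nonneg t
  have h3 := h.nonneg (t + 1)
  have h4 := χ_nonneg U (t + 1)
  by_cases hV : t + 1 ∈ V
  · rw [χ_mem hV] at h1
    rw [χ_mem (h.sub hV)]
    omega
  · rw [χ_not hV] at h1
    by_cases hS : t + 1 ∈ S
    · have := h.idle _ hS hV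
      rw [χ_mem hS]
      omega
    · rw [χ_not hS]
      omega

theorem IsQ.mem_iff {S U V : Finset (ZMod N)} {Q : ZMod N → ℤ} (h : IsQ S U V Q) (t : ZMod N) :
    t + 1 ∈ V ↔ t + 1 ∈ S ∧ 1 ≤ Q t + χ U (t + 1) := by
  have h1 := h.step t
  have h3 := h.nonneg (t + 1)
  constructor
  · intro hV
    rw [χ_mem hV] at h1
    exact ⟨h.sub hV, by omega⟩
  · rintro ⟨hS, h4⟩
    by_contra hV
    have := h.idle _ hS hV
    rw [χ_not hV] at h1
    omega

/-- comparison along the ring -/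
theorem propagate {S U V S' U' V' : Finset (ZMod N)} {Q Q' : ZMod N → ℤ} (h : IsQ S U V Q)
    (h' : IsQ S' U' V' Q') (z : ZMod N) (hz : Q z ≤ Q' z) (L : ℕ)
    (hD : ∀ i : ℕ, 1 ≤ i → i ≤ L → χ U (z + i) - χ S (z + i) ≤ χ U' (z + i) - χ S' (z + i)) :
    ∀ i : ℕ, i ≤ L → Q (z + i) ≤ Q' (z + i) := by
  intro i
  induction i with
  | zero => intro _; simpa using hz
  | succ i ih =>
    intro hi
    have h1 := ih (by omega)
    have h2 := hD (i + 1) (by omega) hi
    have e : z + ((i + 1 : ℕ) : ZMod N) = z + i + 1 := by push_cast; ring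
    rw [e] at h2 ⊢
    rw [h.lindley, h'.lindley]
    exact max_le_max le_rfl (by linarith)

theorem IsQ.unique {S U V V' : Finset (ZMod N)} {Q Q' : ZMod N → ℤ} (h : IsQ S U V Q)
    (h' : IsQ S U V' Q') : V = V' := by
  have hc : V.card = V'.card := h.card.trans h'.card.symm
  by_cases hV : S ⊆ V
  · have e1 : V = S := Subset.antisymm h.sub hV
    have e2 : V' = S := eq_of_subset_of_card_le h'.sub (by rw [← hc, e1])
    rw [e1, e2]
  · have hV' : ¬ S ⊆ V' := by
      intro h1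
      have e2 : V' = S := Subset.antisymm h'.sub h1
      have e1 : V = S := eq_of_subset_of_card_le h.sub (by rw [hc, e2])
      exact hV (e1 ▸ Subset.refl _)
    obtain ⟨z, hz1, hz2⟩ := not_subset.1 hV
    obtain ⟨z', hz1', hz2'⟩ := not_subset.1 hV'
    have a1 : ∀ t, Q t ≤ Q' t := by
      intro t
      have := propagate h h' z (by rw [h.idle z hz1 hz2]; exact h'.nonneg z) (t - z).val
        (fun _ _ _ => le_rfl) (t - z).val le_rfl
      rwa [ZMod.natCast_zmod_val, add_sub_cancel] at this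
    have a2 : ∀ t, Q' t ≤ Q t := by
      intro t
      have := propagate h' h z' (by rw [h'.idle z' hz1' hz2']; exact h.nonneg z') (t - z').val
        (fun _ _ _ => le_rfl) (t - z').val le_rfl
      rwa [ZMod.natCast_zmod_val, add_sub_cancel] at this
    ext t
    have e : t = (t - 1) + 1 := by ring
    rw [e, h.mem_iff, h'.mem_iff, le_antisymm (a1 _) (a2 _)]

/-- partial sums to the left of `t` -/
def FF (D : ZMod N → ℤ) (t : ZMod N) (l : ℕ) : ℤ := ∑ i ∈ range l, D (t - i)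

/-- the queue length -/
def QQ (D : ZMod N → ℤ) (t : ZMod N) : ℤ :=
  (range (N + 1)).sup' ⟨0, mem_range.2 (Nat.succ_pos _)⟩ (FF D t)

theorem FF_zero (D : ZMod N → ℤ) (t : ZMod N) : FF D t 0 = 0 := by simp [FF]

theorem FF_succ (D : ZMod N → ℤ) (t : ZMod N) (l : ℕ) : FF D (t + 1) (l + 1) = D (t + 1) + FF D t l := by
  unfold FF
  rw [sum_range_succ', add_comm]
  congr 1
  · simp
  · refine sum_congr rfl fun i _ => ?_
    congr 1
    push_cast; ring

theorem sum_range_eq (f : ZMod N → ℤ) : ∑ i ∈ range N, f i = ∑ t, f t := by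
  refine sum_bij (fun i _ => (i : ZMod N)) (fun _ _ => mem_univ _) ?_ ?_ (fun _ _ => rfl)
  · intro a ha b hb hab
    have := congrArg ZMod.val hab
    rwa [ZMod.val_cast_of_lt (mem_range.1 ha), ZMod.val_cast_of_lt (mem_range.1 hb)] at this
  · intro t _
    exact ⟨t.val, mem_range.2 (ZMod.val_lt t), ZMod.natCast_zmod_val t⟩

theorem FF_N (D : ZMod N → ℤ) (t : ZMod N) : FF D t N = ∑ x, D x := by
  unfold FF
  rw [sum_range_eq (fun x => D (t - x))]
  exact Equiv.sum_comp (Equiv.subLeft t) D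

theorem le_QQ (D : ZMod N → ℤ) (t : ZMod N) {l : ℕ} (hl : l ≤ N) : FF D t l ≤ QQ D t :=
  le_sup' (FF D t) (mem_range.2 (Nat.lt_succ_of_le hl))

theorem QQ_le (D : ZMod N → ℤ) (t : ZMod N) {c : ℤ} (h : ∀ l ≤ N, FF D t l ≤ c) : QQ D t ≤ c :=
  sup'_le _ _ fun l hl => h l (Nat.le_of_lt_succ (mem_range.1 hl))

theorem QQ_nonneg (D : ZMod N → ℤ) (t : ZMod N) : 0 ≤ QQ D t := by
  have := le_QQ D t (Nat.zero_le N)
  rwa [FF_zero] at this

theorem QQ_lindley (D : ZMod N → ℤ) (hD : ∑ x, D x ≤ 0) (t : ZMod N) :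
    QQ D (t + 1) = max 0 (QQ D t + D (t + 1)) := by
  apply le_antisymm
  · refine QQ_le _ _ fun l hl => ?_
    rcases l with _ | l
    · rw [FF_zero]; exact le_max_left _ _
    · rw [FF_succ]
      have := le_QQ D t (l := l) (by omega)
      exact le_max_of_le_right (by linarith)
  · refine max_le (QQ_nonneg _ _) ?_
    have : QQ D t ≤ QQ D (t + 1) - D (t + 1) := by
      refine QQ_le _ _ fun l hl => ?_
      rcases Nat.lt_or_eq_of_le hl with h | h
      · have := le_QQ D (t + 1) (l := l + 1) h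
        rw [FF_succ] at this
        linarith
      · have h1 := le_QQ D (t + 1) (l := 0 + 1) (by have := NeZero.pos N; omega)
        rw [FF_succ, FF_zero] at h1
        rw [h, FF_N]
        linarith
    linarith

theorem QQ_mono {D D' : ZMod N → ℤ} (h : ∀ x, D x ≤ D' x) (t : ZMod N) : QQ D t ≤ QQ D' t :=
  QQ_le _ _ fun _ hl => le_trans (sum_le_sum fun _ _ => h _) (le_QQ D' t hl)

theorem QQ_le_add {D D' : ZMod N → ℤ} (x : ZMod N) (h : ∀ y, D y ≤ D' y + χ {x} y) (t : ZMod N) :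
    QQ D t ≤ QQ D' t + 1 := by
  refine QQ_le _ _ fun l hl => ?_
  have h1 : FF D t l ≤ FF D' t l + FF (χ {x}) t l := by
    unfold FF
    rw [← sum_add_distrib]
    exact sum_le_sum fun _ _ => h _
  have h2 : FF (χ {x}) t l ≤ FF (χ {x}) t N :=
    sum_le_sum_of_subset_of_nonneg (range_subset_range.2 hl) fun _ _ _ => χ_nonneg _ _
  rw [FF_N, sum_χ, card_singleton] at h2
  have h3 := le_QQ D' t hl
  push_cast at h2
  linarith

/-- queue length for arrivals `U` and services `S` -/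
def ql (S U : Finset (ZMod N)) : ZMod N → ℤ := QQ (fun x => χ U x - χ S x)

/-- the departure times -/
def park (S U : Finset (ZMod N)) : Finset (ZMod N) := S.filter (fun t => 1 ≤ ql S U (t - 1) + χ U t)

theorem isQ_park {S U : Finset (ZMod N)} (h : U.card ≤ S.card) : IsQ S U (park S U) (ql S U) := by
  have hD : ∑ x, (χ U x - χ S x) ≤ 0 := by
    rw [sum_sub_distrib, sum_χ, sum_χ]; omega
  have hl : ∀ t, ql S U (t + 1) = max 0 (ql S U t + (χ U (t + 1) - χ S (t + 1))) :=
    fun t => QQ_lindley _ hD t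
  have hn : ∀ t, 0 ≤ ql S U t := fun t => QQ_nonneg _ t
  have hm : ∀ t, t + 1 ∈ park S U ↔ t + 1 ∈ S ∧ 1 ≤ ql S U t + χ U (t + 1) := by
    intro t
    unfold park
    rw [mem_filter, add_sub_cancel_right]
  refine ⟨filter_subset _ _, hn, fun t => ?_, fun t hS hV => ?_⟩
  · have h1 := hl t
    have h2 := hn t
    have h3 := χ_nonneg U (t + 1)
    by_cases hV : t + 1 ∈ park S U
    · rw [χ_mem hV]
      obtain ⟨h4, h5⟩ := (hm t).1 hV
      rw [χ_mem h4] at h1
      omega
    · rw [χ_not hV]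
      by_cases hS : t + 1 ∈ S
      · rw [χ_mem hS] at h1
        have : ¬ 1 ≤ ql S U t + χ U (t + 1) := fun h => hV ((hm t).2 ⟨hS, h⟩)
        omega
      · rw [χ_not hS] at h1
        omega
  · have e : t = (t - 1) + 1 := by ring
    rw [e] at hS hV ⊢
    have h1 := hl (t - 1)
    have : ¬ 1 ≤ ql S U (t - 1) + χ U (t - 1 + 1) := fun h => hV ((hm _).2 ⟨hS, h⟩)
    rw [χ_mem hS] at h1
    omega

theorem card_park {S U : Finset (ZMod N)} (h : U.card ≤ S.card) : (park S U).card = U.card :=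
  (isQ_park h).card

theorem park_eq_self {S U : Finset (ZMod N)} (h : U.card = S.card) : park S U = S :=
  eq_of_subset_of_card_le (isQ_park h.le).sub (by rw [card_park h.le, h])

theorem ql_mono {S S' U U' : Finset (ZMod N)} (hU : U ⊆ U') (hS : S' ⊆ S) (t : ZMod N) :
    ql S U t ≤ ql S' U' t :=
  QQ_mono (fun x => by have := χ_mono hU x; have := χ_mono hS x; linarith) t

theorem park_mono (S : Finset (ZMod N)) {U U' : Finset (ZMod N)} (hU : U ⊆ U') : park S U ⊆ park S U' := by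
  intro t ht
  unfold park at ht ⊢
  rw [mem_filter] at ht ⊢
  have h1 := ql_mono hU (Subset.refl S) (t - 1)
  have h2 := χ_mono hU t
  exact ⟨ht.1, by linarith [ht.2]⟩

theorem ql_insert (S U : Finset (ZMod N)) (x t : ZMod N) : ql S U t ≤ ql (insert x S) U t + 1 := by
  refine QQ_le_add x (fun y => ?_) t
  unfold χ
  by_cases h1 : y = x <;> by_cases h2 : y ∈ S <;> simp [h1, h2]
  all_goals split_ifs <;> simp

end Pool.Agent.H648Z.TA
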