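import Mathlib
import Pool.Agent.H648Z.TA.Park

set_option autoImplicit false
set_option linter.unusedSectionVars false

/-!
The queue map commutes with the exclusion moves (Ferrari-Martin); adding a service at `x`.
-/

namespace Pool.Agent.H648Z.TA

open Finset

variable {N : ℕ} [NeZero N]

/-- the bond at which the upper line moves -/
def nx (j : ZMod N) (S : Finset (ZMod N)) : ZMod N := if j + 1 ∈ S then j else j + 1

theorem χ_congr {U V : Finset (ZMod N)} {t : ZMod N} (h : t ∈ U ↔ t ∈ V) : χ U t = χ V t := by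
  unfold χ
  simp only [h]

theorem mv_park {S U : Finset (ZMod N)} (h : U.card ≤ S.card) (j : ZMod N) :
    mv j (park S U) = park (mv j S) (mv (nx j S) U) := by
  have hQ := isQ_park h
  have hQ' : IsQ (mv j S) (mv (nx j S) U) _ _ := isQ_park (by rw [card_mv, card_mv]; exact h)
  set V := park S U with hV
  set Q := ql S U with hQdef
  by_cases hj : j + 1 = j
  · have e : nx j S = j := by unfold nx; split_ifs; rfl; exact hj
    rw [e, mv_of_eq _ hj, mv_of_eq _ hj, mv_of_eq _ hj]
  have hj1 : ∀ t : ZMod N, t + 1 ≠ t := fun t ht => hj (by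
    have : (1 : ZMod N) = 0 := by simpa using ht
    simp [this])
  by_cases hS : j + 1 ∈ S
  · have e : nx j S = j := if_pos hS
    rw [e] at hQ' ⊢
    refine IsQ.unique (Q := Function.update Q j (Q (j - 1) + χ (mv j U) j - χ (mv j V) j)) ?_ hQ'
    have s0 := hQ.step (j - 1)
    have s1 := hQ.step j
    have m0 := hQ.mem_iff (j - 1)
    have m1 := hQ.mem_iff j
    have n0 := hQ.nonneg (j - 1)
    have n1 := hQ.nonneg j
    have n2 := hQ.nonneg (j + 1)
    rw [sub_add_cancel] at s0 m0
    have hjm : j - 1 ≠ j := fun h => hj1 (j - 1) (by rw [sub_add_cancel]; exact h.symm)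
    have uL := mem_mv_left j U
    have uR := mem_mv_right U hj
    have vL := mem_mv_left j V
    have vR := mem_mv_right V hj
    have sL := mem_mv_left j S
    have sR := mem_mv_right S hj
    refine ⟨?_, ?_, ?_, ?_⟩
    · intro t ht
      by_cases h1 : t = j
      · rw [h1, sL]; exact Or.inr hS
      · by_cases h2 : t = j + 1
        · rw [h2] at ht ⊢
          rw [vR] at ht
          exact sR.2 ⟨hQ.sub ht.1, hS⟩
        · rw [mem_mv_other _ h1 h2] at ht ⊢
          exact hQ.sub ht
    · intro t
      by_cases h1 : t = j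
      · rw [h1, Function.update_self]
        unfold χ at *
        by_cases a1 : j ∈ U <;> by_cases a2 : j + 1 ∈ U <;> by_cases a3 : j ∈ V <;>
          by_cases a4 : j + 1 ∈ V <;> simp [uL, vL, a1, a2, a3, a4, hS] at s0 s1 m0 m1 ⊢ <;> omega
      · rw [Function.update_of_ne h1]; exact hQ.nonneg t
    · intro t
      by_cases h1 : t = j
      · rw [h1, Function.update_self, Function.update_of_ne hj]
        unfold χ at *
        by_cases a1 : j ∈ U <;> by_cases a2 : j + 1 ∈ U <;> by_cases a3 : j ∈ V <;>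
          by_cases a4 : j + 1 ∈ V <;> simp [uL, uR, vL, vR, a1, a2, a3, a4, hS] at s0 s1 m0 m1 ⊢ <;> omega
      · by_cases h2 : t + 1 = j
        · have e2 : t = j - 1 := by rw [← h2]; ring
          rw [h2, Function.update_self, Function.update_of_ne h1, e2]
        · have h3 : t + 1 ≠ j + 1 := fun h => h1 (add_right_cancel h)
          rw [Function.update_of_ne h1, Function.update_of_ne h2,
            χ_congr (mem_mv_other U h2 h3), χ_congr (mem_mv_other V h2 h3)]
          exact hQ.step t
    · intro t ht hv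
      by_cases h1 : t = j
      · rw [h1] at hv ⊢
        rw [Function.update_self]
        unfold χ at *
        by_cases a1 : j ∈ U <;> by_cases a2 : j + 1 ∈ U <;> by_cases a3 : j ∈ V <;>
          by_cases a4 : j + 1 ∈ V <;> simp [uL, vL, a1, a2, a3, a4, hS] at s0 s1 m0 m1 hv ⊢ <;> omega
      · rw [Function.update_of_ne h1]
        by_cases h2 : t = j + 1
        · rw [h2] at ht hv ⊢
          have a5 : j ∈ S := (sR.1 ht).1
          unfold χ at *
          by_cases a1 : j ∈ U <;> by_cases a2 : j + 1 ∈ U <;> by_cases a3 : j ∈ V <;>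
            by_cases a4 : j + 1 ∈ V <;> simp [vR, a1, a2, a3, a4, a5, hS] at s0 s1 m0 m1 hv ⊢ <;> omega
        · rw [mem_mv_other _ h1 h2] at ht hv
          exact hQ.idle t ht hv
  · have e : nx j S = j + 1 := if_neg hS
    have hVj : j + 1 ∉ V := fun h => hS (hQ.sub h)
    rw [e] at hQ' ⊢
    rw [mv_of_not hS] at hQ' ⊢
    rw [mv_of_not hVj]
    refine IsQ.unique (Q := Function.update Q (j + 1) (Q j + χ (mv (j + 1) U) (j + 1))) ?_ hQ'
    have s1 := hQ.step j
    have s2 := hQ.step (j + 1)
    have uL := mem_mv_left (j + 1) U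
    have uR := mem_mv_right U (hj1 (j + 1))
    refine ⟨hQ.sub, ?_, ?_, ?_⟩
    · intro t
      by_cases h1 : t = j + 1
      · rw [h1, Function.update_self]
        exact add_nonneg (hQ.nonneg j) (χ_nonneg _ _)
      · rw [Function.update_of_ne h1]; exact hQ.nonneg t
    · intro t
      by_cases h1 : t = j + 1
      · rw [h1, Function.update_self, Function.update_of_ne (hj1 _)]
        rw [χ_not hVj] at s1
        rw [s2, s1]
        have : χ U (j + 1) + χ U (j + 1 + 1) = χ (mv (j + 1) U) (j + 1) + χ (mv (j + 1) U) (j + 1 + 1) := by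
          unfold χ
          by_cases a1 : j + 1 ∈ U <;> by_cases a2 : j + 1 + 1 ∈ U <;> simp [uL, uR, a1, a2]
        linarith
      · by_cases h2 : t = j
        · rw [h2, Function.update_self, Function.update_of_ne (Ne.symm hj), χ_not hVj, sub_zero]
        · have h3 : t + 1 ≠ j + 1 := fun h => h2 (add_right_cancel h)
          have h4 : t + 1 ≠ j + 1 + 1 := fun h => h1 (add_right_cancel h)
          rw [Function.update_of_ne h1, Function.update_of_ne h3, χ_congr (mem_mv_other U h3 h4)]
          exact hQ.step t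
    · intro t ht hv
      have h1 : t ≠ j + 1 := fun h => hS (h ▸ ht)
      rw [Function.update_of_ne h1]
      exact hQ.idle t ht hv

/-- the ringing map -/
def ring1 (p : ZMod N × Finset (ZMod N)) : ZMod N × Finset (ZMod N) := (nx p.1 p.2, mv p.1 p.2)

theorem ring1_inj : Function.Injective (ring1 (N := N)) := by
  rintro ⟨j, S⟩ ⟨k, T⟩ h
  simp only [ring1, Prod.mk.injEq] at h
  obtain ⟨h1, h2⟩ := h
  unfold nx at h1
  by_cases a : j + 1 ∈ S <;> by_cases b : k + 1 ∈ T
  · rw [if_pos a, if_pos b] at h1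
    subst h1
    by_cases hj : j + 1 = j
    · rw [mv_of_eq _ hj, mv_of_eq _ hj] at h2
      rw [h2]
    · have r1 := mem_mv_right S hj
      have r2 := mem_mv_right T hj
      rw [h2] at r1
      congr 1
      ext t
      by_cases c1 : t = j
      · rw [c1]; tauto
      · by_cases c2 : t = j + 1
        · rw [c2]; tauto
        · rw [← mem_mv_other S c1 c2, ← mem_mv_other T c1 c2, h2]
  · rw [if_pos a, if_neg b] at h1
    have : j ∈ mv j S := (mem_mv_left j S).2 (Or.inr a)
    rw [h2, mv_of_not b, h1] at this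
    exact absurd this b
  · rw [if_neg a, if_pos b] at h1
    have : k ∈ mv k T := (mem_mv_left k T).2 (Or.inr b)
    rw [← h2, mv_of_not a, ← h1] at this
    exact absurd this a
  · rw [if_neg a, if_neg b] at h1
    rw [mv_of_not a, mv_of_not b] at h2
    rw [add_right_cancel h1, h2]

theorem sum_ring1 (s : ℕ) (g : ZMod N → Finset (ZMod N) → ℝ) :
    ∑ j, ∑ S ∈ powersetCard s (univ : Finset (ZMod N)), g (nx j S) (mv j S) =
      ∑ j, ∑ S ∈ powersetCard s (univ : Finset (ZMod N)), g j S := by
  have e : ∀ g : ZMod N → Finset (ZMod N) → ℝ, ∑ j, ∑ S ∈ powersetCard s (univ : Finset (ZMod N)), g j S =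
      ∑ p : ZMod N × Finset (ZMod N), if p.2.card = s then g p.1 p.2 else 0 := by
    intro g
    rw [Fintype.sum_prod_type]
    refine sum_congr rfl fun j _ => ?_
    rw [← sum_filter]
    refine sum_congr ?_ fun _ _ => rfl
    ext S
    simp [mem_powersetCard]
  rw [e, e]
  refine Eq.trans ?_ ((Finite.injective_iff_bijective.1 ring1_inj).sum_comp
    (fun p : ZMod N × Finset (ZMod N) => if p.2.card = s then g p.1 p.2 else 0))
  refine sum_congr rfl fun p _ => ?_
  simp only [ring1, card_mv]

/-- if the queues with and without a service at `r` agree at a site `z` to the right of `r`, the departures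
agree at the sites to the left of `r` -/
theorem agree {S U : Finset (ZMod N)} (h : U.card ≤ S.card) {r : ℕ} (hr : r < N) (z : ZMod N)
    (hz : r < z.val) (hq : ql S U z = ql (insert (r : ZMod N) S) U z) {a : ℕ} (ha : a < r) :
    (a : ZMod N) ∈ park S U ↔ (a : ZMod N) ∈ park (insert (r : ZMod N) S) U := by
  have hQ := isQ_park h
  have hQ' : IsQ (insert (r : ZMod N) S) U _ _ := isQ_park (h.trans (card_le_card (subset_insert _ _)))
  have hzN := ZMod.val_lt z
  have hne : ∀ i : ℕ, 1 ≤ i → i ≤ N - z.val + a → z + i ≠ (r : ZMod N) := by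
    intro i h1 h2 h3
    rw [← ZMod.natCast_zmod_val z, ← Nat.cast_add, ZMod.natCast_eq_natCast_iff'] at h3
    rw [Nat.mod_eq_of_lt hr] at h3
    by_cases h4 : z.val + i < N
    · rw [Nat.mod_eq_of_lt h4] at h3; omega
    · rw [Nat.mod_eq_sub_mod (by omega), Nat.mod_eq_of_lt (by omega)] at h3; omega
  have hχ : ∀ i : ℕ, 1 ≤ i → i ≤ N - z.val + a → χ S (z + i) = χ (insert (r : ZMod N) S) (z + i) := by
    intro i h1 h2
    refine χ_congr ?_
    simp [hne i h1 h2]
  have p1 := propagate hQ hQ' z hq.le (N - z.val + a) (fun i h1 h2 => by rw [hχ i h1 h2])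
    (N - z.val + a - 1) (by omega)
  have p2 := propagate hQ' hQ z hq.ge (N - z.val + a) (fun i h1 h2 => by rw [hχ i h1 h2])
    (N - z.val + a - 1) (by omega)
  have e : (a : ZMod N) = z + ((N - z.val + a - 1 : ℕ) : ZMod N) + 1 := by
    have e1 : z.val + (N - z.val + a - 1) + 1 = N + a := by omega
    have e2 := congrArg (Nat.cast : ℕ → ZMod N) e1
    rw [Nat.cast_add, Nat.cast_add, Nat.cast_add, ZMod.natCast_zmod_val, ZMod.natCast_self] at e2
    simpa using e2.symm
  have e3 : (a : ZMod N) ≠ (r : ZMod N) := by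
    intro h3
    rw [ZMod.natCast_eq_natCast_iff', Nat.mod_eq_of_lt hr, Nat.mod_eq_of_lt (by omega)] at h3
    omega
  have e4 : (a : ZMod N) ∈ S ↔ (a : ZMod N) ∈ insert (r : ZMod N) S := by simp [e3]
  rw [e] at e4 ⊢
  rw [hQ.mem_iff, hQ'.mem_iff, le_antisymm p1 p2, e4]

/-- the pattern event on a family of level sets -/
def Ev {r : ℕ} (i : Fin r → ℕ) (V : ℕ → Finset (ZMod N)) : Prop :=
  ∀ a : Fin r, ((a : ℕ) : ZMod N) ∈ V (i a + 1) ∧ ((a : ℕ) : ZMod N) ∉ V (i a)

theorem right_of {r : ℕ} {V : Finset (ZMod N)} (hV : ∀ a : Fin r, ((a : ℕ) : ZMod N) ∈ V) {z : ZMod N}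
    (h1 : z ∉ V) (h2 : z ≠ (r : ZMod N)) : r < z.val := by
  rcases lt_trichotomy r z.val with h | h | h
  · exact h
  · exact absurd (by rw [h, ZMod.natCast_zmod_val]) h2
  · have := hV ⟨z.val, h⟩
    rw [ZMod.natCast_zmod_val] at this
    exact absurd this h1

theorem ev_iff {r : ℕ} (hr : r < N) (i : Fin r → ℕ) (U : ℕ → Finset (ZMod N)) (hmono : Monotone U)
    (S : Finset (ZMod N)) (hx : (r : ZMod N) ∉ S) (m : ℕ) (hi : ∀ a, i a + 1 ≤ m)
    (hm : (U m).card < S.card) :
    Ev i (fun c => park S (U c)) ↔ Ev i (fun c => park (insert (r : ZMod N) S) (U c)) := by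
  have hc : ∀ c ≤ m, (U c).card ≤ S.card := fun c h => (card_le_card (hmono h)).trans hm.le
  have hc' : ∀ c ≤ m, (U c).card ≤ (insert (r : ZMod N) S).card :=
    fun c h => (hc c h).trans (card_le_card (subset_insert _ _))
  have fin : ∀ z : ZMod N, r < z.val →
      (∀ c ≤ m, ql S (U c) z = ql (insert (r : ZMod N) S) (U c) z) →
      (Ev i (fun c => park S (U c)) ↔ Ev i (fun c => park (insert (r : ZMod N) S) (U c))) := by
    intro z hz hq
    refine forall_congr' fun a => ?_
    have h1 := hi a
    simp only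
    rw [agree (hc _ h1) hr z hz (hq _ h1) a.2, agree (hc (i a) (by omega)) hr z hz (hq _ (by omega)) a.2]
  constructor
  · intro hE
    have hV : ∀ a : Fin r, ((a : ℕ) : ZMod N) ∈ park S (U m) :=
      fun a => park_mono S (hmono (hi a)) (hE a).1
    obtain ⟨z, hz1, hz2⟩ := exists_mem_notMem_of_card_lt_card
      (show (park S (U m)).card < S.card by rw [card_park hm.le]; exact hm)
    have hz := right_of hV hz2 (fun h => hx (h ▸ hz1))
    refine (fin z hz fun c hcm => ?_).1 hE
    have h1 : ql S (U c) z = 0 :=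
      (isQ_park (hc c hcm)).idle z hz1 (fun h => hz2 (park_mono S (hmono hcm) h))
    have h2 := ql_mono (Subset.refl (U c)) (subset_insert (r : ZMod N) S) z
    have h3 := (isQ_park (hc' c hcm)).nonneg z
    omega
  · intro hE
    have hV : ∀ a : Fin r, ((a : ℕ) : ZMod N) ∈ park (insert (r : ZMod N) S) (U m) :=
      fun a => park_mono _ (hmono (hi a)) (hE a).1
    obtain ⟨z, hz1, hz2⟩ := exists_mem_notMem_of_card_lt_card
      (show (park (insert (r : ZMod N) S) (U m)).card < S.card by rw [card_park (hc' m le_rfl)]; exact hm)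
    have hz := right_of hV hz2 (fun h => hx (h ▸ hz1))
    refine (fin z hz fun c hcm => ?_).2 hE
    have hz3 : z ∉ park (insert (r : ZMod N) S) (U c) := fun h => hz2 (park_mono _ (hmono hcm) h)
    have hQ := isQ_park (hc c hcm)
    have hQ' := isQ_park (hc' c hcm)
    have h1 : ql (insert (r : ZMod N) S) (U c) z = 0 := hQ'.idle z (mem_insert_of_mem hz1) hz3
    have h2 := hQ'.step (z - 1)
    have h3 := hQ.lindley (z - 1)
    have h4 := ql_insert S (U c) (r : ZMod N) (z - 1)
    have h5 := hQ'.nonneg (z - 1)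
    have h6 := χ_nonneg (U c) z
    rw [sub_add_cancel] at h2 h3
    rw [χ_not hz3] at h2
    rw [χ_mem hz1] at h3
    omega

end Pool.Agent.H648Z.TA
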