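import Mathlib
import Pool.Agent.H648Z.TA.Comm

set_option autoImplicit false
set_option linter.unusedSectionVars false

/-!
Uniqueness of the stationary law, the Ferrari-Martin step, and the correlation identity.
-/

namespace Pool.Agent.H648Z.TA

open Finset

theorem uniq {W J : Type} [Fintype W] [DecidableEq W] [Fintype J] (m : J → W → W) (ν : W → ℝ) (z : W)
    (hstat : ∀ f : W → ℝ, ∑ w, ν w * ∑ j, f (m j w) = (Fintype.card J : ℝ) * ∑ w, ν w * f w)
    (hsum : ∑ w, ν w = 0)
    (hreach : ∀ w, ν w ≠ 0 → Relation.ReflTransGen (fun a b => ∃ j, m j a = b) w z) : ∀ w, ν w = 0 := by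
  set k : W → W → ℝ := fun w v => ∑ j, if m j w = v then 1 else 0 with hk
  have k0 : ∀ w v, 0 ≤ k w v := fun w v => sum_nonneg fun j _ => by split_ifs <;> norm_num
  have k1 : ∀ w, ∑ v, k w v = Fintype.card J := by
    intro w
    rw [hk, sum_comm]
    simp
  have k2 : ∀ j w, 1 ≤ k w (m j w) := by
    intro j w
    have := single_le_sum (f := fun j' => if m j' w = m j w then (1 : ℝ) else 0)
      (fun j' _ => by split_ifs <;> norm_num) (mem_univ j)
    rwa [if_pos rfl] at this
  have h1 : ∀ v, ∑ w, ν w * k w v = Fintype.card J * ν v := by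
    intro v
    have := hstat (fun w => if w = v then 1 else 0)
    simpa [hk] using this
  have h2 : ∀ v, (Fintype.card J : ℝ) * |ν v| ≤ ∑ w, |ν w| * k w v := by
    intro v
    have := abs_sum_le_sum_abs (fun w => ν w * k w v) univ
    rw [h1, abs_mul, Nat.abs_cast] at this
    refine this.trans (le_of_eq (sum_congr rfl fun w _ => ?_))
    rw [abs_mul, abs_of_nonneg (k0 w v)]
  have h3 : ∑ v, (Fintype.card J : ℝ) * |ν v| = ∑ v, ∑ w, |ν w| * k w v := by
    rw [sum_comm]
    refine sum_congr rfl fun w _ => ?_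
    rw [← mul_sum, k1, mul_comm]
  have h4 : ∀ v, (Fintype.card J : ℝ) * |ν v| = ∑ w, |ν w| * k w v :=
    fun v => (sum_eq_sum_iff_of_le (fun v _ => h2 v)).1 h3 v (mem_univ v)
  have pos : ∀ μ : W → ℝ, (∀ w, 0 ≤ μ w) → (∀ v, ∑ w, μ w * k w v = Fintype.card J * μ v) →
      ∀ a b, Relation.ReflTransGen (fun a b => ∃ j, m j a = b) a b → 0 < μ a → 0 < μ b := by
    intro μ hμ hs a b hab ha
    induction hab with
    | refl => exact ha
    | @tail b c _ hbc ih =>
      obtain ⟨j, rfl⟩ := hbc
      have e1 := single_le_sum (f := fun w => μ w * k w (m j b))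
        (fun w _ => mul_nonneg (hμ w) (k0 _ _)) (mem_univ b)
      rw [hs] at e1
      have e2 : 0 < μ b * k b (m j b) := mul_pos ih (lt_of_lt_of_le one_pos (k2 j b))
      rcases (hμ (m j b)).lt_or_eq with h | h
      · exact h
      · rw [← h, mul_zero] at e1
        exact absurd e2 (not_lt.2 e1)
  by_contra hne
  push Not at hne
  obtain ⟨w0, hw0⟩ := hne
  have hp : ∃ w, 0 < ν w := by
    by_contra h
    push Not at h
    exact hw0 ((sum_eq_zero_iff_of_nonpos (fun w _ => h w)).1 hsum w0 (mem_univ _))
  have hn : ∃ w, ν w < 0 := by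
    by_contra h
    push Not at h
    exact hw0 ((sum_eq_zero_iff_of_nonneg (fun w _ => h w)).1 hsum w0 (mem_univ _))
  obtain ⟨a, ha⟩ := hp
  obtain ⟨b, hb⟩ := hn
  have pa := pos (fun w => |ν w| + ν w) (fun w => by have := neg_abs_le (ν w); linarith)
    (fun v => by
      simp only [add_mul, sum_add_distrib]
      rw [h1, ← h4]; ring) a z (hreach a ha.ne') (by have := abs_nonneg (ν a); linarith)
  have pb := pos (fun w => |ν w| - ν w) (fun w => by have := le_abs_self (ν w); linarith)
    (fun v => by
      simp only [sub_mul, sum_sub_distrib]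
      rw [h1, ← h4]; ring) b z (hreach b hb.ne) (by have := abs_nonneg (ν b); linarith)
  rcases abs_cases (ν z) with h | h <;> linarith [h.1]

variable {N : ℕ} [NeZero N]

/-- initial segment -/
def seg (N : ℕ) [NeZero N] (a : ℕ) : Finset (ZMod N) := univ.filter (fun t => t.val < a)

theorem card_seg {a : ℕ} (ha : a ≤ N) : (seg N a).card = a := by
  refine Eq.trans ?_ (card_range a)
  refine card_bij (fun t _ => t.val) ?_ ?_ ?_
  · intro t ht
    simpa [seg] using ht
  · intro s _ t _ h
    exact ZMod.val_injective N h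
  · intro b hb
    have hb' := mem_range.1 hb
    refine ⟨(b : ZMod N), ?_, ZMod.val_cast_of_lt (by omega)⟩
    simp only [seg, mem_filter, mem_univ, true_and]
    rwa [ZMod.val_cast_of_lt (by omega)]

theorem eq_seg {U : Finset (ZMod N)} (h : ∀ j : ℕ, j + 1 < N → ((j + 1 : ℕ) : ZMod N) ∈ U → (j : ZMod N) ∈ U) :
    U = seg N U.card := by
  have down : ∀ d j : ℕ, j + d < N → ((j + d : ℕ) : ZMod N) ∈ U → (j : ZMod N) ∈ U := by
    intro d
    induction d with
    | zero => intro j _ hj; simpa using hj
    | succ d ih =>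
      intro j h1 h2
      exact ih j (by omega) (h (j + d) (by omega) h2)
  refine eq_of_subset_of_card_le ?_ (by
    rw [card_seg]
    simpa using card_le_univ U)
  intro t ht
  simp only [seg, mem_filter, mem_univ, true_and]
  have hlt := ZMod.val_lt t
  have : seg N (t.val + 1) ⊆ U := by
    intro u hu
    simp only [seg, mem_filter, mem_univ, true_and] at hu
    have := down (t.val - u.val) u.val (by omega) (by
      rw [show u.val + (t.val - u.val) = t.val by omega, ZMod.natCast_zmod_val]; exact ht)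
    rwa [ZMod.natCast_zmod_val] at this
  have := card_le_card this
  rw [card_seg (by omega)] at this
  omega

theorem pot_mv {j : ℕ} (hj : j + 1 < N) (U : Finset (ZMod N)) :
    ∑ t ∈ mv (j : ZMod N) U, t.val + (if (j : ZMod N) + 1 ∈ U ∧ (j : ZMod N) ∉ U then 1 else 0) =
      ∑ t ∈ U, t.val := by
  unfold mv
  split_ifs with h
  · rw [sum_insert (fun h' => h.2 (mem_of_mem_erase h')), ← add_sum_erase U _ h.1]
    have e1 : ((j : ZMod N) + 1).val = j + 1 := by
      rw [← Nat.cast_succ, ZMod.val_cast_of_lt hj]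
    rw [e1, ZMod.val_cast_of_lt (by omega)]
    omega
  · rfl

theorem reach {ι : Type} [Fintype ι] (n : ℕ) : ∀ w : ι → Finset (ZMod N), ∑ c, ∑ t ∈ w c, t.val = n →
    Relation.ReflTransGen (fun a b => ∃ j : ZMod N, (fun c => mv j (a c)) = b) w
      (fun c => seg N (w c).card) := by
  induction n using Nat.strong_induction_on with
  | _ n ih =>
    intro w hw
    by_cases h : ∀ c, ∀ j : ℕ, j + 1 < N → ((j + 1 : ℕ) : ZMod N) ∈ w c → (j : ZMod N) ∈ w c
    · have : (fun c => seg N (w c).card) = w := funext fun c => (eq_seg (h c)).symm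
      rw [this]
    · push Not at h
      obtain ⟨c, j, hj, h1, h2⟩ := h
      have hlt : ∑ c, ∑ t ∈ mv (j : ZMod N) (w c), t.val < n := by
        rw [← hw]
        refine sum_lt_sum (fun c _ => ?_) ⟨c, mem_univ _, ?_⟩
        · have := pot_mv hj (w c); omega
        · have := pot_mv hj (w c)
          rw [if_pos ⟨by exact_mod_cast h1, h2⟩] at this
          omega
      have := ih _ hlt (fun c => mv (j : ZMod N) (w c)) rfl
      simp only [card_mv] at this
      exact Relation.ReflTransGen.head ⟨j, rfl⟩ this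

section

variable {Ω : Type} [Fintype Ω] (π : Ω → ℝ) (σ : ZMod N → Ω → Ω) (U : Ω → ℕ → Finset (ZMod N))

/-- the Ferrari-Martin step -/
theorem fm (hσ : ∀ j ω c, U (σ j ω) c = mv j (U ω c)) (hcard : ∀ ω c, c ≤ N → (U ω c).card = c)
    (hstat : ∀ f : Ω → ℝ, ∑ ω, π ω * ∑ j, f (σ j ω) = N * ∑ ω, π ω * f ω)
    {ι : Type} [Fintype ι] [DecidableEq ι] (a : ι → ℕ) (s : ℕ) (hs : s ≤ N) (ha : ∀ c, a c ≤ s)
    (f : (ι → Finset (ZMod N)) → ℝ) :
    ∑ ω, π ω * ∑ S ∈ powersetCard s (univ : Finset (ZMod N)), f (fun c => park S (U ω (a c))) =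
      (N.choose s : ℝ) * ∑ ω, π ω * f (fun c => U ω (a c)) := by
  set φ : ((ι → Finset (ZMod N)) → ℝ) → ℝ := fun f =>
    ∑ ω, π ω * ∑ S ∈ powersetCard s (univ : Finset (ZMod N)), f (fun c => park S (U ω (a c))) -
      (N.choose s : ℝ) * ∑ ω, π ω * f (fun c => U ω (a c)) with hφ
  set ν : (ι → Finset (ZMod N)) → ℝ := fun w => φ (fun v => if v = w then 1 else 0) with hν
  have hrep : ∀ f, ∑ w, ν w * f w = φ f := by
    intro f
    simp only [hν, hφ, sub_mul, sum_sub_distrib, sum_mul, mul_assoc, ← mul_sum]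
    congr 1
    · rw [sum_comm]
      refine sum_congr rfl fun ω _ => ?_
      rw [← mul_sum, sum_comm]
      congr 1
      refine sum_congr rfl fun S _ => ?_
      simp
    · congr 1
      rw [sum_comm]
      refine sum_congr rfl fun ω _ => ?_
      rw [← mul_sum]
      simp
  have hle : ∀ ω c, ∀ S ∈ powersetCard s (univ : Finset (ZMod N)), (U ω (a c)).card ≤ S.card := by
    intro ω c S hS
    rw [hcard ω _ ((ha c).trans hs), (mem_powersetCard.1 hS).2]
    exact ha c
  have hz := uniq (fun (j : ZMod N) (w : ι → Finset (ZMod N)) => fun c => mv j (w c)) ν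
    (fun c => seg N (a c)) ?_ ?_ ?_
  · have := hrep f
    simp only [hz, zero_mul, sum_const_zero] at this
    exact sub_eq_zero.1 this.symm
  · intro f
    rw [hrep, hrep, ZMod.card]
    simp only [hφ]
    rw [mul_sub]
    congr 1
    · rw [← hstat (fun ω => ∑ S ∈ powersetCard s (univ : Finset (ZMod N)),
        f (fun c => park S (U ω (a c))))]
      refine sum_congr rfl fun ω _ => ?_
      congr 1
      rw [sum_comm, ← sum_ring1 s (fun j S => f (fun c => park S (U (σ j ω) (a c))))]
      refine sum_congr rfl fun j _ => sum_congr rfl fun S hS => ?_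
      congr 1
      funext c
      rw [hσ, mv_park (hle ω c S hS)]
    · rw [mul_left_comm, ← hstat (fun ω => f (fun c => U ω (a c)))]
      simp only [hσ]
  · have := hrep (fun _ => 1)
    simp only [mul_one] at this
    rw [this]
    simp only [hφ, sum_const, card_powersetCard, card_univ, ZMod.card, nsmul_eq_mul, mul_one]
    rw [← sum_mul]
    ring
  · intro w hw
    have hc : ∀ c, (w c).card = a c := by
      by_contra hcon
      apply hw
      simp only [hν, hφ]
      rw [sum_eq_zero, sum_eq_zero, mul_zero, sub_zero]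
      · intro ω _
        rw [if_neg, mul_zero]
        intro h
        exact hcon fun c => by rw [← h]; exact hcard ω _ ((ha c).trans hs)
      · intro ω _
        rw [sum_eq_zero, mul_zero]
        intro S hS
        rw [if_neg]
        intro h
        exact hcon fun c => by
          rw [← h]
          exact (card_park (hle ω c S hS)).trans (hcard ω _ ((ha c).trans hs))
    have := reach _ w rfl
    simpa only [hc] using this

open Classical in
/-- indicator of a proposition -/
noncomputable def ind (p : Prop) : ℝ := if p then 1 else 0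

theorem ind_pos {p : Prop} (h : p) : ind p = 1 := if_pos h
theorem ind_neg {p : Prop} (h : ¬ p) : ind p = 0 := if_neg h

open Classical in
theorem sum_ind {α : Type} (s : Finset α) (p : α → Prop) : ∑ x ∈ s, ind (p x) = ∑ _x ∈ s.filter p, (1 : ℝ) := by
  rw [sum_filter]
  rfl

open Classical in
theorem core (hσ : ∀ j ω c, U (σ j ω) c = mv j (U ω c)) (hcard : ∀ ω c, c ≤ N → (U ω c).card = c)
    (hmono : ∀ ω, Monotone (U ω))
    (hstat : ∀ f : Ω → ℝ, ∑ ω, π ω * ∑ j, f (σ j ω) = N * ∑ ω, π ω * f ω)
    {r : ℕ} (hr : r < N) (i : Fin r → ℕ) (d : ℕ) : ∀ s : ℕ, s + d = N → (∀ a, i a + 1 < s) →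
    (N : ℝ) * ∑ ω, π ω * ind (Ev i (U ω) ∧ (r : ZMod N) ∉ U ω s) =
      d * ∑ ω, π ω * ind (Ev i (U ω)) := by
  -- the Ferrari-Martin step for the events which are needed
  have key : ∀ s : ℕ, s ≤ N → (∀ a, i a + 1 ≤ s) → ∀ g : Finset (ZMod N) → Prop,
      ∑ ω, π ω * ∑ S ∈ powersetCard s (univ : Finset (ZMod N)),
        ind (Ev i (fun c => park S (U ω c)) ∧ g S) =
      (N.choose s : ℝ) * ∑ ω, π ω * ind (Ev i (U ω) ∧ g (U ω s)) := by
    intro s hs hi g
    have := fm π σ U hσ hcard hstat (ι := Fin (s + 1)) (fun c => c.val) s hs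
      (fun c => Nat.le_of_lt_succ c.2)
      (fun w => ind ((∀ a : Fin r, ((a : ℕ) : ZMod N) ∈ w ⟨i a + 1, Nat.lt_succ_of_le (hi a)⟩ ∧
        ((a : ℕ) : ZMod N) ∉ w ⟨i a, by have := hi a; omega⟩) ∧ g (w (Fin.last s))))
    refine Eq.trans ?_ (this.trans ?_)
    · refine sum_congr rfl fun ω _ => ?_
      congr 1
      refine sum_congr rfl fun S hS => ?_
      have e : park S (U ω s) = S := park_eq_self (by rw [hcard ω s hs, (mem_powersetCard.1 hS).2])
      simp only [Ev, Fin.val_last, e]
    · simp only [Ev, Fin.val_last]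
  induction d with
  | zero =>
    intro s hs _
    have hsN : s = N := by omega
    rw [sum_eq_zero]
    · simp
    · intro ω _
      have : U ω s = univ := eq_univ_of_card _ (by rw [hcard ω s hsN.le, ZMod.card, hsN])
      simp [this, ind]
  | succ d ih =>
    intro s hs hi
    have ih1 := ih (s + 1) (by omega) (fun a => by have := hi a; omega)
    have k1 := key s (by omega) (fun a => (hi a).le) (fun S => (r : ZMod N) ∉ S)
    have k2 := key (s + 1) (by omega) (fun a => by have := hi a; omega) (fun S => (r : ZMod N) ∈ S)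
    have hAB : ∀ ω, ∑ S ∈ powersetCard s (univ : Finset (ZMod N)),
        ind (Ev i (fun c => park S (U ω c)) ∧ (r : ZMod N) ∉ S) =
        ∑ S ∈ powersetCard (s + 1) (univ : Finset (ZMod N)),
        ind (Ev i (fun c => park S (U ω c)) ∧ (r : ZMod N) ∈ S) := by
      intro ω
      rw [sum_ind, sum_ind]
      have hev : ∀ S : Finset (ZMod N), S.card = s → (r : ZMod N) ∉ S →
          (Ev i (fun c => park S (U ω c)) ↔ Ev i (fun c => park (insert (r : ZMod N) S) (U ω c))) := by
        intro S hS hx
        rcases Nat.eq_zero_or_pos s with h0 | h0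
        · refine forall_congr' fun a => ?_
          have := hi a
          omega
        · exact ev_iff hr i (U ω) (hmono ω) S hx (s - 1) (fun a => by have := hi a; omega)
            (by rw [hcard ω _ (by omega), hS]; omega)
      refine sum_bij (fun S _ => insert (r : ZMod N) S) ?_ ?_ ?_ (fun _ _ => rfl)
      · intro S hS
        simp only [mem_filter, mem_powersetCard, subset_univ, true_and] at hS ⊢
        exact ⟨by rw [card_insert_of_notMem hS.2.2, hS.1], (hev S hS.1 hS.2.2).1 hS.2.1, mem_insert_self _ _⟩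
      · intro S hS T hT h
        simp only [mem_filter] at hS hT
        rw [← erase_insert hS.2.2, ← erase_insert hT.2.2, h]
      · intro T hT
        simp only [mem_filter, mem_powersetCard, subset_univ, true_and] at hT
        have e1 : (T.erase (r : ZMod N)).card = s := by rw [card_erase_of_mem hT.2.2, hT.1]; rfl
        refine ⟨T.erase (r : ZMod N), ?_, insert_erase hT.2.2⟩
        simp only [mem_filter, mem_powersetCard, subset_univ, true_and]
        refine ⟨e1, (hev _ e1 (notMem_erase _ _)).2 ?_, notMem_erase _ _⟩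
        rw [insert_erase hT.2.2]
        exact hT.2.1
    simp only [hAB] at k1
    rw [k2] at k1
    have hsplit : ∑ ω, π ω * ind (Ev i (U ω) ∧ (r : ZMod N) ∈ U ω (s + 1)) =
        ∑ ω, π ω * ind (Ev i (U ω)) -
          ∑ ω, π ω * ind (Ev i (U ω) ∧ (r : ZMod N) ∉ U ω (s + 1)) := by
      rw [← sum_sub_distrib]
      refine sum_congr rfl fun ω _ => ?_
      by_cases h1 : Ev i (U ω) <;> by_cases h2 : (r : ZMod N) ∈ U ω (s + 1) <;> simp [h1, h2, ind]
    rw [hsplit] at k1
    have hch : (N.choose (s + 1) : ℝ) * (s + 1) = N.choose s * (d + 1) := by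
      have := Nat.choose_succ_right_eq N s
      rw [show N - s = d + 1 by omega] at this
      exact_mod_cast this
    have hpos : (0 : ℝ) < N.choose s := by exact_mod_cast Nat.choose_pos (by omega)
    have hN : (N : ℝ) = s + (d + 1) := by rw [← hs]; push_cast; ring
    set e := ∑ ω, π ω * ind (Ev i (U ω))
    set p := ∑ ω, π ω * ind (Ev i (U ω) ∧ (r : ZMod N) ∉ U ω s)
    set p' := ∑ ω, π ω * ind (Ev i (U ω) ∧ (r : ZMod N) ∉ U ω (s + 1))
    refine mul_left_cancel₀ hpos.ne' ?_
    push_cast
    have h5 : (N.choose (s + 1) : ℝ) * (N * e - d * e) = N.choose s * (N * p) := by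
      rw [← ih1]
      linear_combination (N : ℝ) * k1
    rw [← h5]
    have h6 : (N : ℝ) * e - d * e = (s + 1) * e := by rw [hN]; ring
    rw [h6, ← mul_assoc, hch]
    ring

end

end Pool.Agent.H648Z.TA
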