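import Mathlib
import Pool.Agent.H648Z.TA.Core

set_option autoImplicit false
set_option linter.unusedSectionVars false

/-!
The multispecies TASEP on permutations.
-/

namespace Pool.Agent.H648Z.TA

open Finset

/-- the move at the bond `(j, j + 1)` -/
def pm {n : ℕ} (j : Fin n) (τ : Equiv.Perm (Fin n)) : Equiv.Perm (Fin n) :=
  if τ (finRotate n j) < τ j then τ * Equiv.swap j (finRotate n j) else τ

theorem stat_dual {n : ℕ} (π : Equiv.Perm (Fin n) → ℝ)
    (hbal : ∀ σ : Equiv.Perm (Fin n),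
        (∑ k : Fin n, (if σ (finRotate n k) < σ k then π σ else 0)) =
          ∑ k : Fin n, (if σ k < σ (finRotate n k)
            then π (σ * Equiv.swap k (finRotate n k)) else 0))
    (f : Equiv.Perm (Fin n) → ℝ) : ∑ τ, π τ * ∑ j, f (pm j τ) = n * ∑ τ, π τ * f τ := by
  have e1 : ∀ j : Fin n, ∑ τ, π τ * f (pm j τ) =
      ∑ τ, ((if τ j < τ (finRotate n j) then π (τ * Equiv.swap j (finRotate n j)) else 0) * f τ +
        (π τ - (if τ (finRotate n j) < τ j then π τ else 0)) * f τ) := by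
    intro j
    rw [sum_add_distrib, ← Equiv.sum_comp (Equiv.mulRight (Equiv.swap j (finRotate n j)))
      (fun τ => (if τ j < τ (finRotate n j) then π (τ * Equiv.swap j (finRotate n j)) else 0) * f τ),
      ← sum_add_distrib]
    refine sum_congr rfl fun τ _ => ?_
    simp only [Equiv.coe_mulRight, Equiv.Perm.coe_mul, Function.comp_apply, Equiv.swap_apply_left,
      Equiv.swap_apply_right, mul_assoc, Equiv.swap_mul_self, mul_one, pm]
    split_ifs <;> ring
  simp only [mul_sum]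
  rw [sum_comm]
  simp only [e1]
  rw [sum_comm]
  refine sum_congr rfl fun τ _ => ?_
  rw [sum_add_distrib, ← sum_mul, ← sum_mul, ← hbal, sum_sub_distrib]
  simp only [sum_const, card_univ, Fintype.card_fin, nsmul_eq_mul]
  ring

/-- the level sets of a permutation -/
def lev {k : ℕ} (τ : Equiv.Perm (Fin (k + 1))) (c : ℕ) : Finset (ZMod (k + 1)) :=
  (univ : Finset (Fin (k + 1))).filter (fun t => (τ t).val < c)

theorem mem_lev {k : ℕ} (τ : Equiv.Perm (Fin (k + 1))) (c : ℕ) (t : Fin (k + 1)) :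
    (show ZMod (k + 1) from t) ∈ lev τ c ↔ (τ t).val < c := by
  unfold lev
  exact mem_filter.trans (and_iff_right (mem_univ _))

theorem lev_mono {k : ℕ} (τ : Equiv.Perm (Fin (k + 1))) : Monotone (lev τ) := by
  intro c c' h t ht
  exact (mem_lev τ c' t).2 (lt_of_lt_of_le ((mem_lev τ c t).1 ht) h)

theorem card_lev {k : ℕ} (τ : Equiv.Perm (Fin (k + 1))) (c : ℕ) (hc : c ≤ k + 1) : (lev τ c).card = c := by
  refine Eq.trans ?_ (card_range c)
  refine card_bij (fun (t : Fin (k + 1)) _ => (τ t).val) ?_ ?_ ?_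
  · intro t ht
    exact mem_range.2 ((mem_lev τ c t).1 ht)
  · intro s _ t _ h
    exact τ.injective (Fin.ext h)
  · intro b hb
    have hb' := mem_range.1 hb
    refine ⟨τ.symm ⟨b, by omega⟩, (mem_lev τ c _).2 ?_, ?_⟩ <;> simp [hb']

theorem lev_pm {k : ℕ} (j : ZMod (k + 1)) (τ : Equiv.Perm (Fin (k + 1))) (c : ℕ) :
    lev (pm (n := k + 1) j τ) c = mv j (lev τ c) := by
  have hrot : finRotate (k + 1) j = (j + 1 : ZMod (k + 1)) := finRotate_apply (n := k + 1) j
  have m0 := mem_lev τ c j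
  have m1 := mem_lev τ c (j + 1 : ZMod (k + 1))
  by_cases hj : j + 1 = j
  · rw [mv_of_eq _ hj]
    unfold pm
    rw [hrot, hj, if_neg (lt_irrefl _)]
  ext t
  rw [mem_lev]
  unfold pm
  rw [hrot]
  by_cases h1 : t = j
  · rw [h1, mem_mv_left, m0, m1]
    split_ifs with h
    · rw [Equiv.Perm.mul_apply, Equiv.swap_apply_left]
      rw [Fin.lt_def] at h
      omega
    · rw [Fin.lt_def] at h
      omega
  · by_cases h2 : t = j + 1
    · rw [h2, mem_mv_right _ hj, m0, m1]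
      split_ifs with h
      · rw [Equiv.Perm.mul_apply, Equiv.swap_apply_right]
        rw [Fin.lt_def] at h
        omega
      · rw [Fin.lt_def] at h
        omega
    · rw [mem_mv_other _ h1 h2, mem_lev]
      split_ifs with h
      · rw [Equiv.Perm.mul_apply, Equiv.swap_apply_of_ne_of_ne (α := Fin (k + 1)) h1 h2]
      · rfl

theorem cast_eq {k a : ℕ} (h : a < k + 1) : ((a : ℕ) : ZMod (k + 1)) = (⟨a, h⟩ : Fin (k + 1)) := by
  apply ZMod.val_injective
  rw [ZMod.val_cast_of_lt h]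
  rfl

theorem perm_main (n : ℕ) (π : Equiv.Perm (Fin n) → ℝ)
    (hbal : ∀ σ : Equiv.Perm (Fin n),
        (∑ k : Fin n, (if σ (finRotate n k) < σ k then π σ else 0)) =
          ∑ k : Fin n, (if σ k < σ (finRotate n k)
            then π (σ * Equiv.swap k (finRotate n k)) else 0))
    (r : ℕ) (h : r < n) (i : Fin r → Fin n) (k : Fin n) (hk : ∀ a : Fin r, (i a : ℕ) + 1 < (k : ℕ)) :
    (n : ℝ) * ∑ τ, π τ * ind ((∀ a : Fin r, τ (Fin.castLE h.le a) = i a) ∧ τ ⟨r, h⟩ = k) =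
      ∑ τ, π τ * ind (∀ a : Fin r, τ (Fin.castLE h.le a) = i a) := by
  obtain ⟨m, rfl⟩ : ∃ m, n = m + 1 := ⟨n - 1, by omega⟩
  have hst := stat_dual π hbal
  have c := core (N := m + 1) π (fun j τ => pm (n := m + 1) j τ) lev lev_pm card_lev lev_mono
    (fun f => hst f) h (fun a => (i a : ℕ))
  have hk2 := k.2
  have c1 := c (m + 1 - k) k (by omega) hk
  have c2 := c (m - k) (k + 1) (by omega) (fun a => by have := hk a; omega)
  have hE : ∀ τ : Equiv.Perm (Fin (m + 1)),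
      Ev (fun a => (i a : ℕ)) (lev τ) ↔ ∀ a : Fin r, τ (Fin.castLE h.le a) = i a := by
    intro τ
    refine forall_congr' fun a => ?_
    have ha : (a : ℕ) < m + 1 := a.2.trans h
    rw [cast_eq ha, mem_lev, mem_lev, Fin.ext_iff (a := τ _)]
    have : (⟨a, ha⟩ : Fin (m + 1)) = Fin.castLE h.le a := rfl
    rw [this]
    beta_reduce
    omega
  have hx : ∀ (τ : Equiv.Perm (Fin (m + 1))) (s : ℕ),
      ((r : ℕ) : ZMod (m + 1)) ∉ lev τ s ↔ s ≤ (τ ⟨r, h⟩).val := by
    intro τ s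
    rw [cast_eq h, mem_lev, not_lt]
  simp only [hE, hx] at c1 c2
  have e : ∑ τ, π τ * ind ((∀ a : Fin r, τ (Fin.castLE h.le a) = i a) ∧ τ ⟨r, h⟩ = k) =
      ∑ τ, π τ * ind ((∀ a : Fin r, τ (Fin.castLE h.le a) = i a) ∧ (k : ℕ) ≤ (τ ⟨r, h⟩).val) -
      ∑ τ, π τ * ind ((∀ a : Fin r, τ (Fin.castLE h.le a) = i a) ∧ (k : ℕ) + 1 ≤ (τ ⟨r, h⟩).val) := by
    rw [← sum_sub_distrib]
    refine sum_congr rfl fun τ _ => ?_
    rw [← mul_sub]
    congr 1
    by_cases h1 : ∀ a : Fin r, τ (Fin.castLE h.le a) = i a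
    · rcases lt_trichotomy (τ ⟨r, h⟩).val k.val with h2 | h2 | h2
      · rw [ind_neg, ind_neg, ind_neg, sub_zero]
        · omega
        · omega
        · rw [Fin.ext_iff]; omega
      · rw [ind_pos ⟨h1, Fin.ext h2⟩, ind_pos ⟨h1, h2.ge⟩, ind_neg, sub_zero]
        omega
      · rw [ind_neg, ind_pos ⟨h1, h2.le⟩, ind_pos ⟨h1, h2⟩, sub_self]
        rw [Fin.ext_iff]; omega
    · rw [ind_neg (fun h => h1 h.1), ind_neg (fun h => h1 h.1), ind_neg (fun h => h1 h.1), sub_zero]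
  rw [e, mul_sub, c1, c2]
  have : ((m + 1 - k : ℕ) : ℝ) = ((m - k : ℕ) : ℝ) + 1 := by
    rw [show m + 1 - k = (m - k) + 1 by omega]
    push_cast
    ring
  rw [this]
  ring

theorem sum_filter_eq {α : Type} [Fintype α] (π : α → ℝ) (p : α → Prop) [DecidablePred p] :
    ∑ τ ∈ univ.filter p, π τ = ∑ τ, π τ * ind (p τ) := by
  rw [sum_filter]
  refine sum_congr rfl fun τ _ => ?_
  by_cases h : p τ
  · rw [if_pos h, ind_pos h, mul_one]
  · rw [if_neg h, ind_neg h, mul_zero]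

end Pool.Agent.H648Z.TA
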